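import Pool.Agent.Helper81.MIT.LinQ
import Pool.Agent.Helper30.W2.Tt
import Pool.Agent.Helper81.TK.GL14
import Pool.Agent.Helper81.TK.GL15
import Pool.Agent.Helper81.TK.GL16

/-!
The quarters of the tasks of the class `12`.
-/

set_option autoImplicit false
set_option exponentiation.threshold 4000
noncomputable section
namespace Pool.Agent.Helper81.H3

open Pool.Agent.Helper81.MIT
open Pool.Agent.Helper6.MONO.QTR (QX)
open Pool.Agent.Helper6.CXT (ln0 ln1)
open Pool.Agent.Helper30.W2 (Lx inT Tt)

theorem b12_0_d00 : TcL (Lx (.a 593023592694960 584690307029723 584690307029723)) (Lb.tl 543767898917872 543767898917874) (Lb.tl 550648146272263 550648146272265) (Lb.tl 553364660681454 553364660681456) 0 2251799813685248 :=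
  ((Pool.Agent.Helper81.TK.E_12_T_T_Lc1c1.T.box (Lb.le_refl _) (Lb.le_tl (by norm_num) (by norm_num)) (Lb.le_tl (by norm_num) (by norm_num))).join
    (Pool.Agent.Helper81.TK.E_12_T_T_Lcc.T.box (Lb.le_refl _) (Lb.le_tl (by norm_num) (by norm_num)) (Lb.le_tl (by norm_num) (by norm_num))) (by norm_num) (by norm_num)).sub (by norm_num) (by norm_num)
theorem b12_0_m00 : TcL (Lx (.a 593023592694960 584690307029723 584690307029723)) (Lb.tl 543767898917872 543767898917874) (Lb.tl 553364660681454 553364660681456) (Lb.tl 550648146272263 550648146272265) 0 2251799813685248 :=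
  ((Pool.Agent.Helper81.TK.E_12_T_T_Lc1c1.T.box (Lb.le_refl _) (Lb.le_tl (by norm_num) (by norm_num)) (Lb.le_tl (by norm_num) (by norm_num))).join
    (Pool.Agent.Helper81.TK.E_12_T_T_Lcc.T.box (Lb.le_refl _) (Lb.le_tl (by norm_num) (by norm_num)) (Lb.le_tl (by norm_num) (by norm_num))) (by norm_num) (by norm_num)).sub (by norm_num) (by norm_num)
theorem b12_0_d01 : TcL (Lx (.a 593023592694960 584690307029723 584690307029723)) (Lb.tl 543767898917872 543767898917874) (Lb.tl 550648146272263 550648146272265) (Lb.tl 554397478687168 557706607176302) 0 2251799813685248 :=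
  ((Pool.Agent.Helper81.TK.E_12_T_T_Lc1c2.T.box (Lb.le_refl _) (Lb.le_tl (by norm_num) (by norm_num)) (Lb.le_tl (by norm_num) (by norm_num))).join
    (Pool.Agent.Helper81.TK.E_12_T_T_Lcc.T.box (Lb.le_refl _) (Lb.le_tl (by norm_num) (by norm_num)) (Lb.le_tl (by norm_num) (by norm_num))) (by norm_num) (by norm_num)).sub (by norm_num) (by norm_num)
theorem b12_0_m01 : TcL (Lx (.a 593023592694960 584690307029723 584690307029723)) (Lb.tl 543767898917872 543767898917874) (Lb.tl 554397478687168 557706607176302) (Lb.tl 550648146272263 550648146272265) 0 2251799813685248 :=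
  ((Pool.Agent.Helper81.TK.E_12_T_T_Lc2c1.T.box (Lb.le_refl _) (Lb.le_tl (by norm_num) (by norm_num)) (Lb.le_tl (by norm_num) (by norm_num))).join
    (Pool.Agent.Helper81.TK.E_12_T_T_Lcc.T.box (Lb.le_refl _) (Lb.le_tl (by norm_num) (by norm_num)) (Lb.le_tl (by norm_num) (by norm_num))) (by norm_num) (by norm_num)).sub (by norm_num) (by norm_num)
/-- task `(15, 15, 17, 23)` of the class `12` -/
theorem h3_12_0 {q r : ℕ} (hT : inT ⟨15, 15, 17, 23, .a 593023592694960 584690307029723 584690307029723⟩ q r = true) (hqr : q ≤ r) :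
    QX 12 q r (Lx (.a 593023592694960 584690307029723 584690307029723) 12 q r) ∧ QX 12 r q (Lx (.a 593023592694960 584690307029723 584690307029723) 12 q r) :=
  h3_a (lo := 450359962737050) (hi := 537617205517353) (Q := [(15, 15)]) (R := [(17, 17), (18, 23)])
    (l := [((550648146272263, 550648146272265), (553364660681454, 553364660681456)), ((550648146272263, 550648146272265), (554397478687168, 557706607176302))])
    (l' := [((550648146272263, 550648146272265), (553364660681454, 553364660681456)), ((550648146272263, 550648146272265), (554397478687168, 557706607176302))])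
    (inB_ok (P := (12, 12)) (b := (543767898917872, 543767898917874)) (by decide +kernel) ⟨le_rfl, Or.inr le_rfl⟩) (by norm_num) (by norm_num) (by decide +kernel) (by decide +kernel) (by norm_num) (by decide +kernel) (by norm_num)
    (FarI_three (by norm_num) (by norm_num) (by norm_num)) (by decide +kernel) (by decide +kernel)
    (List.forall_mem_cons.2 ⟨b12_0_d00, (List.forall_mem_cons.2 ⟨b12_0_d01, (fun _ h => absurd h List.not_mem_nil)⟩)⟩)
    (List.forall_mem_cons.2 ⟨b12_0_m00, (List.forall_mem_cons.2 ⟨b12_0_m01, (fun _ h => absurd h List.not_mem_nil)⟩)⟩) le_rfl hT hqr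

theorem b12_1_d00 : TcL (Lx (.a 593023592694960 584690307029723 584690307029723)) (Lb.tl 543767898917872 543767898917874) (Lb.tl 552133027919306 553364660681456) (Lb.tl 550648146272263 553364660681456) 0 2251799813685248 :=
  ((Pool.Agent.Helper81.TK.E_12_T_T_Lc1c1.T.box (Lb.le_refl _) (Lb.le_tl (by norm_num) (by norm_num)) (Lb.le_tl (by norm_num) (by norm_num))).join
    (Pool.Agent.Helper81.TK.E_12_T_T_Lcc.T.box (Lb.le_refl _) (Lb.le_tl (by norm_num) (by norm_num)) (Lb.le_tl (by norm_num) (by norm_num))) (by norm_num) (by norm_num)).sub (by norm_num) (by norm_num)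
theorem b12_1_m00 : TcL (Lx (.a 593023592694960 584690307029723 584690307029723)) (Lb.tl 543767898917872 543767898917874) (Lb.tl 550648146272263 553364660681456) (Lb.tl 552133027919306 553364660681456) 0 2251799813685248 :=
  ((Pool.Agent.Helper81.TK.E_12_T_T_Lc1c1.T.box (Lb.le_refl _) (Lb.le_tl (by norm_num) (by norm_num)) (Lb.le_tl (by norm_num) (by norm_num))).join
    (Pool.Agent.Helper81.TK.E_12_T_T_Lcc.T.box (Lb.le_refl _) (Lb.le_tl (by norm_num) (by norm_num)) (Lb.le_tl (by norm_num) (by norm_num))) (by norm_num) (by norm_num)).sub (by norm_num) (by norm_num)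
theorem b12_1_d01 : TcL (Lx (.a 593023592694960 584690307029723 584690307029723)) (Lb.tl 543767898917872 543767898917874) (Lb.tl 552133027919306 553364660681456) (Lb.tl 554397478687168 557706607176302) 0 2251799813685248 :=
  ((Pool.Agent.Helper81.TK.E_12_T_T_Lc1c2.T.box (Lb.le_refl _) (Lb.le_tl (by norm_num) (by norm_num)) (Lb.le_tl (by norm_num) (by norm_num))).join
    (Pool.Agent.Helper81.TK.E_12_T_T_Lcc.T.box (Lb.le_refl _) (Lb.le_tl (by norm_num) (by norm_num)) (Lb.le_tl (by norm_num) (by norm_num))) (by norm_num) (by norm_num)).sub (by norm_num) (by norm_num)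
theorem b12_1_m01 : TcL (Lx (.a 593023592694960 584690307029723 584690307029723)) (Lb.tl 543767898917872 543767898917874) (Lb.tl 554397478687168 557706607176302) (Lb.tl 552133027919306 553364660681456) 0 2251799813685248 :=
  ((Pool.Agent.Helper81.TK.E_12_T_T_Lc2c1.T.box (Lb.le_refl _) (Lb.le_tl (by norm_num) (by norm_num)) (Lb.le_tl (by norm_num) (by norm_num))).join
    (Pool.Agent.Helper81.TK.E_12_T_T_Lcc.T.box (Lb.le_refl _) (Lb.le_tl (by norm_num) (by norm_num)) (Lb.le_tl (by norm_num) (by norm_num))) (by norm_num) (by norm_num)).sub (by norm_num) (by norm_num)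
theorem b12_1_d11 : TcL (Lx (.a 593023592694960 584690307029723 584690307029723)) (Lb.tl 543767898917872 543767898917874) (Lb.tl 554397478687168 557706607176302) (Lb.tl 554397478687168 557706607176302) 0 2251799813685248 :=
  ((Pool.Agent.Helper81.TK.E_12_T_T_Lc2c2.T.box (Lb.le_refl _) (Lb.le_tl (by norm_num) (by norm_num)) (Lb.le_tl (by norm_num) (by norm_num))).join
    (Pool.Agent.Helper81.TK.E_12_T_T_Lcc.T.box (Lb.le_refl _) (Lb.le_tl (by norm_num) (by norm_num)) (Lb.le_tl (by norm_num) (by norm_num))) (by norm_num) (by norm_num)).sub (by norm_num) (by norm_num)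
theorem b12_1_m11 : TcL (Lx (.a 593023592694960 584690307029723 584690307029723)) (Lb.tl 543767898917872 543767898917874) (Lb.tl 554397478687168 557706607176302) (Lb.tl 554397478687168 557706607176302) 0 2251799813685248 :=
  ((Pool.Agent.Helper81.TK.E_12_T_T_Lc2c2.T.box (Lb.le_refl _) (Lb.le_tl (by norm_num) (by norm_num)) (Lb.le_tl (by norm_num) (by norm_num))).join
    (Pool.Agent.Helper81.TK.E_12_T_T_Lcc.T.box (Lb.le_refl _) (Lb.le_tl (by norm_num) (by norm_num)) (Lb.le_tl (by norm_num) (by norm_num))) (by norm_num) (by norm_num)).sub (by norm_num) (by norm_num)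
/-- task `(16, 23, 15, 23)` of the class `12` -/
theorem h3_12_1 {q r : ℕ} (hT : inT ⟨16, 23, 15, 23, .a 593023592694960 584690307029723 584690307029723⟩ q r = true) (hqr : q ≤ r) :
    QX 12 q r (Lx (.a 593023592694960 584690307029723 584690307029723) 12 q r) ∧ QX 12 r q (Lx (.a 593023592694960 584690307029723 584690307029723) 12 q r) :=
  h3_a (lo := 450359962737050) (hi := 537617205517353) (Q := [(16, 17), (18, 23)]) (R := [(15, 17), (18, 23)])
    (l := [((552133027919306, 553364660681456), (550648146272263, 553364660681456)), ((552133027919306, 553364660681456), (554397478687168, 557706607176302)), ((554397478687168, 557706607176302), (554397478687168, 557706607176302))])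
    (l' := [((552133027919306, 553364660681456), (550648146272263, 553364660681456)), ((552133027919306, 553364660681456), (554397478687168, 557706607176302)), ((554397478687168, 557706607176302), (554397478687168, 557706607176302))])
    (inB_ok (P := (12, 12)) (b := (543767898917872, 543767898917874)) (by decide +kernel) ⟨le_rfl, Or.inr le_rfl⟩) (by norm_num) (by norm_num) (by decide +kernel) (by decide +kernel) (by norm_num) (by decide +kernel) (by norm_num)
    (FarI_three (by norm_num) (by norm_num) (by norm_num)) (by decide +kernel) (by decide +kernel)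
    (List.forall_mem_cons.2 ⟨b12_1_d00, (List.forall_mem_cons.2 ⟨b12_1_d01, (List.forall_mem_cons.2 ⟨b12_1_d11, (fun _ h => absurd h List.not_mem_nil)⟩)⟩)⟩)
    (List.forall_mem_cons.2 ⟨b12_1_m00, (List.forall_mem_cons.2 ⟨b12_1_m01, (List.forall_mem_cons.2 ⟨b12_1_m11, (fun _ h => absurd h List.not_mem_nil)⟩)⟩)⟩) le_rfl hT hqr

theorem b12_2_d00 : TcL (Lx (.a 570005326636406 595063876554619 568714032416206)) (Lb.tl 543767898917872 543767898917874) (Lb.tl 550648146272263 557706607176302) (Lb.tl 558133838530185 562949953421312) 0 2251799813685248 :=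
  (Pool.Agent.Helper81.TK.E_12_T_T_Lcd.T.box (Lb.le_refl _) (Lb.le_tl (by norm_num) (by norm_num)) (Lb.le_tl (by norm_num) (by norm_num))).sub (by norm_num) (by norm_num)
theorem b12_2_m00 : TcL (Lx (.a 570005326636406 568714032416206 595063876554619)) (Lb.tl 543767898917872 543767898917874) (Lb.tl 558133838530185 562949953421312) (Lb.tl 550648146272263 557706607176302) 0 2251799813685248 :=
  (Pool.Agent.Helper81.TK.E_12_T_T_Ldc.T.box (Lb.le_refl _) (Lb.le_tl (by norm_num) (by norm_num)) (Lb.le_tl (by norm_num) (by norm_num))).sub (by norm_num) (by norm_num)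
/-- task `(15, 23, 24, 0)` of the class `12` -/
theorem h3_12_2 {q r : ℕ} (hT : inT ⟨15, 23, 24, 0, .a 570005326636406 595063876554619 568714032416206⟩ q r = true) (hqr : q ≤ r) :
    QX 12 q r (Lx (.a 570005326636406 595063876554619 568714032416206) 12 q r) ∧ QX 12 r q (Lx (.a 570005326636406 595063876554619 568714032416206) 12 q r) :=
  h3_a (lo := 450359962737050) (hi := 537617205517353) (Q := [(15, 19), (20, 23)]) (R := [(24, 36), (37, 0)])
    (l := [((550648146272263, 557706607176302), (558133838530185, 562949953421312))])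
    (l' := [((550648146272263, 557706607176302), (558133838530185, 562949953421312))])
    (inB_ok (P := (12, 12)) (b := (543767898917872, 543767898917874)) (by decide +kernel) ⟨le_rfl, Or.inr le_rfl⟩) (by norm_num) (by norm_num) (by decide +kernel) (by decide +kernel) (by norm_num) (by decide +kernel) (by norm_num)
    (FarI_three (by norm_num) (by norm_num) (by norm_num)) (by decide +kernel) (by decide +kernel)
    (List.forall_mem_cons.2 ⟨b12_2_d00, (fun _ h => absurd h List.not_mem_nil)⟩)
    (List.forall_mem_cons.2 ⟨b12_2_m00, (fun _ h => absurd h List.not_mem_nil)⟩) le_rfl hT hqr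

theorem b12_3_d00 : TcL (Lx (.a 563029512405284 580988203937286 580988203937286)) (Lb.tl 543767898917872 543767898917874) (Lb.tl 558133838530185 562949953421312) (Lb.tl 558133838530185 562949953421312) 0 2251799813685248 :=
  (Pool.Agent.Helper81.TK.E_12_T_T_Ldd.T.box (Lb.le_refl _) (Lb.le_tl (by norm_num) (by norm_num)) (Lb.le_tl (by norm_num) (by norm_num))).sub (by norm_num) (by norm_num)
theorem b12_3_m00 : TcL (Lx (.a 563029512405284 580988203937286 580988203937286)) (Lb.tl 543767898917872 543767898917874) (Lb.tl 558133838530185 562949953421312) (Lb.tl 558133838530185 562949953421312) 0 2251799813685248 :=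
  (Pool.Agent.Helper81.TK.E_12_T_T_Ldd.T.box (Lb.le_refl _) (Lb.le_tl (by norm_num) (by norm_num)) (Lb.le_tl (by norm_num) (by norm_num))).sub (by norm_num) (by norm_num)
/-- task `(24, 0, 24, 0)` of the class `12` -/
theorem h3_12_3 {q r : ℕ} (hT : inT ⟨24, 0, 24, 0, .a 563029512405284 580988203937286 580988203937286⟩ q r = true) (hqr : q ≤ r) :
    QX 12 q r (Lx (.a 563029512405284 580988203937286 580988203937286) 12 q r) ∧ QX 12 r q (Lx (.a 563029512405284 580988203937286 580988203937286) 12 q r) :=
  h3_a (lo := 450359962737050) (hi := 537617205517353) (Q := [(24, 36), (37, 0)]) (R := [(24, 36), (37, 0)])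
    (l := [((558133838530185, 562949953421312), (558133838530185, 562949953421312))])
    (l' := [((558133838530185, 562949953421312), (558133838530185, 562949953421312))])
    (inB_ok (P := (12, 12)) (b := (543767898917872, 543767898917874)) (by decide +kernel) ⟨le_rfl, Or.inr le_rfl⟩) (by norm_num) (by norm_num) (by decide +kernel) (by decide +kernel) (by norm_num) (by decide +kernel) (by norm_num)
    (FarI_three (by norm_num) (by norm_num) (by norm_num)) (by decide +kernel) (by decide +kernel)
    (List.forall_mem_cons.2 ⟨b12_3_d00, (fun _ h => absurd h List.not_mem_nil)⟩)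
    (List.forall_mem_cons.2 ⟨b12_3_m00, (fun _ h => absurd h List.not_mem_nil)⟩) le_rfl hT hqr

/-- **ALL TASKS OF THE CLASS** -/
theorem h3_12 : ∀ t ∈ Tt 12, ∀ q r : ℕ, inT t q r = true → q ≤ r →
    QX 12 q r (Lx t.l 12 q r) ∧ QX 12 r q (Lx t.l 12 q r) := by
  intro t ht q r hT hqr
  simp only [Tt, List.mem_cons, List.not_mem_nil, or_false] at ht
  rcases ht with rfl | rfl | rfl | rfl
  · exact h3_12_0 hT hqr
  · exact h3_12_1 hT hqr
  · exact h3_12_2 hT hqr
  · exact h3_12_3 hT hqr

end Pool.Agent.Helper81.H3
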