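import Pool.Agent.Helper81.MIT.LinQ
import Pool.Agent.Helper30.W2.Tt
import Pool.Agent.Helper81.TK.GV1
import Pool.Agent.Helper81.TK.GW2

/-!
The quarters of the tasks of the class `5`.
-/

set_option autoImplicit false
set_option exponentiation.threshold 4000
noncomputable section
namespace Pool.Agent.Helper81.H3

open Pool.Agent.Helper81.MIT
open Pool.Agent.Helper6.MONO.QTR (QX)
open Pool.Agent.Helper6.CXT (ln0 ln1)
open Pool.Agent.Helper30.W2 (Lx inT Tt)

/-- task `(10, 14, 10, 0)` of the class `5` -/
theorem h3_5_0 {q r : ℕ} (hT : inT ⟨10, 14, 10, 0, .c 413768215764664⟩ q r = true) (hqr : q ≤ r) :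
    QX 5 q r (Lx (.c 413768215764664) 5 q r) ∧ QX 5 r q (Lx (.c 413768215764664) 5 q r) :=
  h3_c (Q := [(10, 14)]) (R := [(10, 0)]) (l := [((535397221531648, 562949953421312), (535397221531648, 562949953421312))]) (l' := [((535397221531648, 562949953421312), (535397221531648, 562949953421312))])
    (ex_has (by norm_num) (by norm_num)) (by norm_num) (by decide +kernel) (by decide +kernel) (by norm_num) (by norm_num)
    (FarI_two (by norm_num) (by norm_num) (by norm_num [ln0]) (by norm_num [ln1]) (by norm_num)) (by decide +kernel) (by decide +kernel)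
    (List.forall_mem_singleton.2 Pool.Agent.Helper81.TK.tt5)
    (List.forall_mem_singleton.2 Pool.Agent.Helper81.TK.tt5) le_rfl hT hqr

/-- task `(15, 0, 15, 0)` of the class `5` -/
theorem h3_5_1 {q r : ℕ} (hT : inT ⟨15, 0, 15, 0, .c 430656714367304⟩ q r = true) (hqr : q ≤ r) :
    QX 5 q r (Lx (.c 430656714367304) 5 q r) ∧ QX 5 r q (Lx (.c 430656714367304) 5 q r) :=
  h3_c (Q := [(15, 0)]) (R := [(15, 0)]) (l := [((550648146034688, 562949953421312), (550648146034688, 562949953421312))]) (l' := [((550648146034688, 562949953421312), (550648146034688, 562949953421312))])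
    (ex_has (by norm_num) (by norm_num)) (by norm_num) (by decide +kernel) (by decide +kernel) (by norm_num) (by norm_num)
    (FarI_two (by norm_num) (by norm_num) (by norm_num [ln0]) (by norm_num [ln1]) (by norm_num)) (by decide +kernel) (by decide +kernel)
    (List.forall_mem_singleton.2 Pool.Agent.Helper81.TK.E_5_T_T_v22.T)
    (List.forall_mem_singleton.2 Pool.Agent.Helper81.TK.E_5_T_T_v22.T) le_rfl hT hqr

/-- **ALL TASKS OF THE CLASS** -/
theorem h3_5 : ∀ t ∈ Tt 5, ∀ q r : ℕ, inT t q r = true → q ≤ r →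
    QX 5 q r (Lx t.l 5 q r) ∧ QX 5 r q (Lx t.l 5 q r) := by
  intro t ht q r hT hqr
  simp only [Tt, List.mem_cons, List.not_mem_nil, or_false] at ht
  rcases ht with rfl | rfl
  · exact h3_5_0 hT hqr
  · exact h3_5_1 hT hqr

end Pool.Agent.Helper81.H3
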