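import Pool.Agent.Helper81.MIT.LinQ
import Pool.Agent.Helper30.W2.Tt
import Pool.Agent.Helper81.TK.GL4
import Pool.Agent.Helper81.TK.GL5
import Pool.Agent.Helper81.TK.GL6
import Pool.Agent.Helper81.TK.GL7

/-!
The quarters of the tasks of the class `8`.
-/

set_option autoImplicit false
set_option exponentiation.threshold 4000
noncomputable section
namespace Pool.Agent.Helper81.H3

open Pool.Agent.Helper81.MIT
open Pool.Agent.Helper6.MONO.QTR (QX)
open Pool.Agent.Helper6.CXT (ln0 ln1)
open Pool.Agent.Helper30.W2 (Lx inT Tt)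

theorem b8_0_d00 : TcL (Lx (.a 1230248057847669 621245329832414 621245329832414)) (Lb.ex 8) (Lb.tl 535397221549391 540146524804358) (Lb.tl 535397221549391 540146524804358) 0 2251799813685248 :=
  (Pool.Agent.Helper81.TK.E_8_T_T_Laa.T.box (Lb.le_refl _) (Lb.le_tl (by norm_num) (by norm_num)) (Lb.le_tl (by norm_num) (by norm_num))).sub (by norm_num) (by norm_num)
theorem b8_0_m00 : TcL (Lx (.a 1230248057847669 621245329832414 621245329832414)) (Lb.ex 8) (Lb.tl 535397221549391 540146524804358) (Lb.tl 535397221549391 540146524804358) 0 2251799813685248 :=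
  (Pool.Agent.Helper81.TK.E_8_T_T_Laa.T.box (Lb.le_refl _) (Lb.le_tl (by norm_num) (by norm_num)) (Lb.le_tl (by norm_num) (by norm_num))).sub (by norm_num) (by norm_num)
/-- task `(10, 11, 10, 11)` of the class `8` -/
theorem h3_8_0 {q r : ℕ} (hT : inT ⟨10, 11, 10, 11, .a 1230248057847669 621245329832414 621245329832414⟩ q r = true) (hqr : q ≤ r) :
    QX 8 q r (Lx (.a 1230248057847669 621245329832414 621245329832414) 8 q r) ∧ QX 8 r q (Lx (.a 1230248057847669 621245329832414 621245329832414) 8 q r) :=
  h3_a (lo := 467248461339689) (hi := 526358206448927) (Q := [(10, 11)]) (R := [(10, 11)])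
    (l := [((535397221549391, 540146524804358), (535397221549391, 540146524804358))])
    (l' := [((535397221549391, 540146524804358), (535397221549391, 540146524804358))])
    (ex_has (by norm_num) (by norm_num)) (by norm_num) (by norm_num) (by decide +kernel) (by decide +kernel) (by norm_num) (by decide +kernel) (by norm_num)
    (FarI_two (by norm_num) (by norm_num) (by norm_num [ln0]) (by norm_num [ln1]) (by norm_num)) (by decide +kernel) (by decide +kernel)
    (List.forall_mem_cons.2 ⟨b8_0_d00, (fun _ h => absurd h List.not_mem_nil)⟩)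
    (List.forall_mem_cons.2 ⟨b8_0_m00, (fun _ h => absurd h List.not_mem_nil)⟩) le_rfl hT hqr

theorem b8_1_d00 : TcL (Lx (.a 1208342017738274 961015682954173 281474976710656)) (Lb.ex 8) (Lb.tl 535397221549391 540146524804358) (Lb.tl 543767898917872 548835622751896) 0 2251799813685248 :=
  (Pool.Agent.Helper81.TK.E_8_T_T_Lab.T.box (Lb.le_refl _) (Lb.le_tl (by norm_num) (by norm_num)) (Lb.le_tl (by norm_num) (by norm_num))).sub (by norm_num) (by norm_num)
theorem b8_1_m00 : TcL (Lx (.a 1208342017738274 281474976710656 961015682954173)) (Lb.ex 8) (Lb.tl 543767898917872 548835622751896) (Lb.tl 535397221549391 540146524804358) 0 2251799813685248 :=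
  (Pool.Agent.Helper81.TK.E_8_T_T_Lba.T.box (Lb.le_refl _) (Lb.le_tl (by norm_num) (by norm_num)) (Lb.le_tl (by norm_num) (by norm_num))).sub (by norm_num) (by norm_num)
theorem b8_1_d01 : TcL (Lx (.a 1208342017738274 961015682954173 281474976710656)) (Lb.ex 8) (Lb.tl 535397221549391 540146524804358) (Lb.tl 550648146272263 557706607176302) 0 2251799813685248 :=
  ((Pool.Agent.Helper81.TK.E_8_T_T_Lac.T.box (Lb.le_refl _) (Lb.le_tl (by norm_num) (by norm_num)) (Lb.le_tl (by norm_num) (by norm_num))).join
    (Pool.Agent.Helper81.TK.E_8_T_T_LT1T2.T.box (Lb.le_refl _) (Lb.le_tl (by norm_num) (by norm_num)) (Lb.le_tl (by norm_num) (by norm_num))) (by norm_num) (by norm_num)).sub (by norm_num) (by norm_num)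
theorem b8_1_m01 : TcL (Lx (.a 1208342017738274 281474976710656 961015682954173)) (Lb.ex 8) (Lb.tl 550648146272263 557706607176302) (Lb.tl 535397221549391 540146524804358) 0 2251799813685248 :=
  ((Pool.Agent.Helper81.TK.E_8_T_T_Lca.T.box (Lb.le_refl _) (Lb.le_tl (by norm_num) (by norm_num)) (Lb.le_tl (by norm_num) (by norm_num))).join
    (Pool.Agent.Helper81.TK.E_8_T_T_LT2T1.T.box (Lb.le_refl _) (Lb.le_tl (by norm_num) (by norm_num)) (Lb.le_tl (by norm_num) (by norm_num))) (by norm_num) (by norm_num)).sub (by norm_num) (by norm_num)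
theorem b8_1_d02 : TcL (Lx (.a 1208342017738274 961015682954173 281474976710656)) (Lb.ex 8) (Lb.tl 535397221549391 540146524804358) (Lb.tl 558133838530185 562949953421312) 0 2251799813685248 :=
  ((Pool.Agent.Helper81.TK.E_8_T_T_Lad.T.box (Lb.le_refl _) (Lb.le_tl (by norm_num) (by norm_num)) (Lb.le_tl (by norm_num) (by norm_num))).join
    (Pool.Agent.Helper81.TK.E_8_T_T_LT1T2.T.box (Lb.le_refl _) (Lb.le_tl (by norm_num) (by norm_num)) (Lb.le_tl (by norm_num) (by norm_num))) (by norm_num) (by norm_num)).sub (by norm_num) (by norm_num)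
theorem b8_1_m02 : TcL (Lx (.a 1208342017738274 281474976710656 961015682954173)) (Lb.ex 8) (Lb.tl 558133838530185 562949953421312) (Lb.tl 535397221549391 540146524804358) 0 2251799813685248 :=
  ((Pool.Agent.Helper81.TK.E_8_T_T_Lda.T.box (Lb.le_refl _) (Lb.le_tl (by norm_num) (by norm_num)) (Lb.le_tl (by norm_num) (by norm_num))).join
    (Pool.Agent.Helper81.TK.E_8_T_T_LT2T1.T.box (Lb.le_refl _) (Lb.le_tl (by norm_num) (by norm_num)) (Lb.le_tl (by norm_num) (by norm_num))) (by norm_num) (by norm_num)).sub (by norm_num) (by norm_num)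
/-- task `(10, 11, 12, 0)` of the class `8` -/
theorem h3_8_1 {q r : ℕ} (hT : inT ⟨10, 11, 12, 0, .a 1208342017738274 961015682954173 281474976710656⟩ q r = true) (hqr : q ≤ r) :
    QX 8 q r (Lx (.a 1208342017738274 961015682954173 281474976710656) 8 q r) ∧ QX 8 r q (Lx (.a 1208342017738274 961015682954173 281474976710656) 8 q r) :=
  h3_a (lo := 467248461339689) (hi := 526358206448927) (Q := [(10, 11)]) (R := [(12, 14), (15, 23), (24, 0)])
    (l := [((535397221549391, 540146524804358), (543767898917872, 548835622751896)), ((535397221549391, 540146524804358), (550648146272263, 557706607176302)), ((535397221549391, 540146524804358), (558133838530185, 562949953421312))])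
    (l' := [((535397221549391, 540146524804358), (543767898917872, 548835622751896)), ((535397221549391, 540146524804358), (550648146272263, 557706607176302)), ((535397221549391, 540146524804358), (558133838530185, 562949953421312))])
    (ex_has (by norm_num) (by norm_num)) (by norm_num) (by norm_num) (by decide +kernel) (by decide +kernel) (by norm_num) (by decide +kernel) (by norm_num)
    (FarI_two (by norm_num) (by norm_num) (by norm_num [ln0]) (by norm_num [ln1]) (by norm_num)) (by decide +kernel) (by decide +kernel)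
    (List.forall_mem_cons.2 ⟨b8_1_d00, (List.forall_mem_cons.2 ⟨b8_1_d01, (List.forall_mem_cons.2 ⟨b8_1_d02, (fun _ h => absurd h List.not_mem_nil)⟩)⟩)⟩)
    (List.forall_mem_cons.2 ⟨b8_1_m00, (List.forall_mem_cons.2 ⟨b8_1_m01, (List.forall_mem_cons.2 ⟨b8_1_m02, (fun _ h => absurd h List.not_mem_nil)⟩)⟩)⟩) le_rfl hT hqr

theorem b8_2_d00 : TcL (Lx (.a 1232087524023601 621245329832414 621245329832414)) (Lb.ex 8) (Lb.tl 543767898917872 548835622751896) (Lb.tl 543767898917872 548835622751896) 0 2251799813685248 :=
  (Pool.Agent.Helper81.TK.E_8_T_T_Lbb.T.box (Lb.le_refl _) (Lb.le_tl (by norm_num) (by norm_num)) (Lb.le_tl (by norm_num) (by norm_num))).sub (by norm_num) (by norm_num)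
theorem b8_2_m00 : TcL (Lx (.a 1232087524023601 621245329832414 621245329832414)) (Lb.ex 8) (Lb.tl 543767898917872 548835622751896) (Lb.tl 543767898917872 548835622751896) 0 2251799813685248 :=
  (Pool.Agent.Helper81.TK.E_8_T_T_Lbb.T.box (Lb.le_refl _) (Lb.le_tl (by norm_num) (by norm_num)) (Lb.le_tl (by norm_num) (by norm_num))).sub (by norm_num) (by norm_num)
/-- task `(12, 14, 12, 14)` of the class `8` -/
theorem h3_8_2 {q r : ℕ} (hT : inT ⟨12, 14, 12, 14, .a 1232087524023601 621245329832414 621245329832414⟩ q r = true) (hqr : q ≤ r) :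
    QX 8 q r (Lx (.a 1232087524023601 621245329832414 621245329832414) 8 q r) ∧ QX 8 r q (Lx (.a 1232087524023601 621245329832414 621245329832414) 8 q r) :=
  h3_a (lo := 467248461339689) (hi := 526358206448927) (Q := [(12, 14)]) (R := [(12, 14)])
    (l := [((543767898917872, 548835622751896), (543767898917872, 548835622751896))])
    (l' := [((543767898917872, 548835622751896), (543767898917872, 548835622751896))])
    (ex_has (by norm_num) (by norm_num)) (by norm_num) (by norm_num) (by decide +kernel) (by decide +kernel) (by norm_num) (by decide +kernel) (by norm_num)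
    (FarI_two (by norm_num) (by norm_num) (by norm_num [ln0]) (by norm_num [ln1]) (by norm_num)) (by decide +kernel) (by decide +kernel)
    (List.forall_mem_cons.2 ⟨b8_2_d00, (fun _ h => absurd h List.not_mem_nil)⟩)
    (List.forall_mem_cons.2 ⟨b8_2_m00, (fun _ h => absurd h List.not_mem_nil)⟩) le_rfl hT hqr

theorem b8_3_d00 : TcL (Lx (.a 1208342017738274 961015682954173 281474976710656)) (Lb.ex 8) (Lb.tl 543767898917872 548835622751896) (Lb.tl 550648146272263 557706607176302) 0 2251799813685248 :=
  ((Pool.Agent.Helper81.TK.E_8_T_T_Lbc.T.box (Lb.le_refl _) (Lb.le_tl (by norm_num) (by norm_num)) (Lb.le_tl (by norm_num) (by norm_num))).join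
    (Pool.Agent.Helper81.TK.E_8_T_T_LT1T2.T.box (Lb.le_refl _) (Lb.le_tl (by norm_num) (by norm_num)) (Lb.le_tl (by norm_num) (by norm_num))) (by norm_num) (by norm_num)).sub (by norm_num) (by norm_num)
theorem b8_3_m00 : TcL (Lx (.a 1208342017738274 281474976710656 961015682954173)) (Lb.ex 8) (Lb.tl 550648146272263 557706607176302) (Lb.tl 543767898917872 548835622751896) 0 2251799813685248 :=
  ((Pool.Agent.Helper81.TK.E_8_T_T_Lcb.T.box (Lb.le_refl _) (Lb.le_tl (by norm_num) (by norm_num)) (Lb.le_tl (by norm_num) (by norm_num))).join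
    (Pool.Agent.Helper81.TK.E_8_T_T_LT2T1.T.box (Lb.le_refl _) (Lb.le_tl (by norm_num) (by norm_num)) (Lb.le_tl (by norm_num) (by norm_num))) (by norm_num) (by norm_num)).sub (by norm_num) (by norm_num)
theorem b8_3_d01 : TcL (Lx (.a 1208342017738274 961015682954173 281474976710656)) (Lb.ex 8) (Lb.tl 543767898917872 548835622751896) (Lb.tl 558133838530185 562949953421312) 0 2251799813685248 :=
  ((Pool.Agent.Helper81.TK.E_8_T_T_Lbd.T.box (Lb.le_refl _) (Lb.le_tl (by norm_num) (by norm_num)) (Lb.le_tl (by norm_num) (by norm_num))).join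
    (Pool.Agent.Helper81.TK.E_8_T_T_LT1T2.T.box (Lb.le_refl _) (Lb.le_tl (by norm_num) (by norm_num)) (Lb.le_tl (by norm_num) (by norm_num))) (by norm_num) (by norm_num)).sub (by norm_num) (by norm_num)
theorem b8_3_m01 : TcL (Lx (.a 1208342017738274 281474976710656 961015682954173)) (Lb.ex 8) (Lb.tl 558133838530185 562949953421312) (Lb.tl 543767898917872 548835622751896) 0 2251799813685248 :=
  ((Pool.Agent.Helper81.TK.E_8_T_T_Ldb.T.box (Lb.le_refl _) (Lb.le_tl (by norm_num) (by norm_num)) (Lb.le_tl (by norm_num) (by norm_num))).join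
    (Pool.Agent.Helper81.TK.E_8_T_T_LT2T1.T.box (Lb.le_refl _) (Lb.le_tl (by norm_num) (by norm_num)) (Lb.le_tl (by norm_num) (by norm_num))) (by norm_num) (by norm_num)).sub (by norm_num) (by norm_num)
/-- task `(12, 14, 15, 0)` of the class `8` -/
theorem h3_8_3 {q r : ℕ} (hT : inT ⟨12, 14, 15, 0, .a 1208342017738274 961015682954173 281474976710656⟩ q r = true) (hqr : q ≤ r) :
    QX 8 q r (Lx (.a 1208342017738274 961015682954173 281474976710656) 8 q r) ∧ QX 8 r q (Lx (.a 1208342017738274 961015682954173 281474976710656) 8 q r) :=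
  h3_a (lo := 467248461339689) (hi := 526358206448927) (Q := [(12, 14)]) (R := [(15, 23), (24, 0)])
    (l := [((543767898917872, 548835622751896), (550648146272263, 557706607176302)), ((543767898917872, 548835622751896), (558133838530185, 562949953421312))])
    (l' := [((543767898917872, 548835622751896), (550648146272263, 557706607176302)), ((543767898917872, 548835622751896), (558133838530185, 562949953421312))])
    (ex_has (by norm_num) (by norm_num)) (by norm_num) (by norm_num) (by decide +kernel) (by decide +kernel) (by norm_num) (by decide +kernel) (by norm_num)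
    (FarI_two (by norm_num) (by norm_num) (by norm_num [ln0]) (by norm_num [ln1]) (by norm_num)) (by decide +kernel) (by decide +kernel)
    (List.forall_mem_cons.2 ⟨b8_3_d00, (List.forall_mem_cons.2 ⟨b8_3_d01, (fun _ h => absurd h List.not_mem_nil)⟩)⟩)
    (List.forall_mem_cons.2 ⟨b8_3_m00, (List.forall_mem_cons.2 ⟨b8_3_m01, (fun _ h => absurd h List.not_mem_nil)⟩)⟩) le_rfl hT hqr

theorem b8_4_d00 : TcL (Lx (.a 1241892185764679 621245329832414 621245329832414)) (Lb.ex 8) (Lb.tl 550648146272263 557706607176302) (Lb.tl 550648146272263 557706607176302) 0 2251799813685248 :=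
  (Pool.Agent.Helper81.TK.E_8_T_T_Lcc.T.box (Lb.le_refl _) (Lb.le_tl (by norm_num) (by norm_num)) (Lb.le_tl (by norm_num) (by norm_num))).sub (by norm_num) (by norm_num)
theorem b8_4_m00 : TcL (Lx (.a 1241892185764679 621245329832414 621245329832414)) (Lb.ex 8) (Lb.tl 550648146272263 557706607176302) (Lb.tl 550648146272263 557706607176302) 0 2251799813685248 :=
  (Pool.Agent.Helper81.TK.E_8_T_T_Lcc.T.box (Lb.le_refl _) (Lb.le_tl (by norm_num) (by norm_num)) (Lb.le_tl (by norm_num) (by norm_num))).sub (by norm_num) (by norm_num)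
/-- task `(15, 23, 15, 23)` of the class `8` -/
theorem h3_8_4 {q r : ℕ} (hT : inT ⟨15, 23, 15, 23, .a 1241892185764679 621245329832414 621245329832414⟩ q r = true) (hqr : q ≤ r) :
    QX 8 q r (Lx (.a 1241892185764679 621245329832414 621245329832414) 8 q r) ∧ QX 8 r q (Lx (.a 1241892185764679 621245329832414 621245329832414) 8 q r) :=
  h3_a (lo := 467248461339689) (hi := 526358206448927) (Q := [(15, 23)]) (R := [(15, 23)])
    (l := [((550648146272263, 557706607176302), (550648146272263, 557706607176302))])
    (l' := [((550648146272263, 557706607176302), (550648146272263, 557706607176302))])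
    (ex_has (by norm_num) (by norm_num)) (by norm_num) (by norm_num) (by decide +kernel) (by decide +kernel) (by norm_num) (by decide +kernel) (by norm_num)
    (FarI_two (by norm_num) (by norm_num) (by norm_num [ln0]) (by norm_num [ln1]) (by norm_num)) (by decide +kernel) (by decide +kernel)
    (List.forall_mem_cons.2 ⟨b8_4_d00, (fun _ h => absurd h List.not_mem_nil)⟩)
    (List.forall_mem_cons.2 ⟨b8_4_m00, (fun _ h => absurd h List.not_mem_nil)⟩) le_rfl hT hqr

theorem b8_5_d00 : TcL (Lx (.a 1208342017738274 961015682954173 281474976710656)) (Lb.ex 8) (Lb.tl 550648146272263 557706607176302) (Lb.tl 558133838530185 562949953421312) 0 2251799813685248 :=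
  (Pool.Agent.Helper81.TK.E_8_T_T_Lcd.T.box (Lb.le_refl _) (Lb.le_tl (by norm_num) (by norm_num)) (Lb.le_tl (by norm_num) (by norm_num))).sub (by norm_num) (by norm_num)
theorem b8_5_m00 : TcL (Lx (.a 1208342017738274 281474976710656 961015682954173)) (Lb.ex 8) (Lb.tl 558133838530185 562949953421312) (Lb.tl 550648146272263 557706607176302) 0 2251799813685248 :=
  (Pool.Agent.Helper81.TK.E_8_T_T_Ldc.T.box (Lb.le_refl _) (Lb.le_tl (by norm_num) (by norm_num)) (Lb.le_tl (by norm_num) (by norm_num))).sub (by norm_num) (by norm_num)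
/-- task `(15, 23, 24, 0)` of the class `8` -/
theorem h3_8_5 {q r : ℕ} (hT : inT ⟨15, 23, 24, 0, .a 1208342017738274 961015682954173 281474976710656⟩ q r = true) (hqr : q ≤ r) :
    QX 8 q r (Lx (.a 1208342017738274 961015682954173 281474976710656) 8 q r) ∧ QX 8 r q (Lx (.a 1208342017738274 961015682954173 281474976710656) 8 q r) :=
  h3_a (lo := 467248461339689) (hi := 526358206448927) (Q := [(15, 23)]) (R := [(24, 0)])
    (l := [((550648146272263, 557706607176302), (558133838530185, 562949953421312))])
    (l' := [((550648146272263, 557706607176302), (558133838530185, 562949953421312))])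
    (ex_has (by norm_num) (by norm_num)) (by norm_num) (by norm_num) (by decide +kernel) (by decide +kernel) (by norm_num) (by decide +kernel) (by norm_num)
    (FarI_two (by norm_num) (by norm_num) (by norm_num [ln0]) (by norm_num [ln1]) (by norm_num)) (by decide +kernel) (by decide +kernel)
    (List.forall_mem_cons.2 ⟨b8_5_d00, (fun _ h => absurd h List.not_mem_nil)⟩)
    (List.forall_mem_cons.2 ⟨b8_5_m00, (fun _ h => absurd h List.not_mem_nil)⟩) le_rfl hT hqr

theorem b8_6_d00 : TcL (Lx (.a 1231496805806464 621245329832414 621245329832414)) (Lb.ex 8) (Lb.tl 558133838530185 562949953421312) (Lb.tl 558133838530185 562949953421312) 0 2251799813685248 :=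
  (Pool.Agent.Helper81.TK.E_8_T_T_Ldd.T.box (Lb.le_refl _) (Lb.le_tl (by norm_num) (by norm_num)) (Lb.le_tl (by norm_num) (by norm_num))).sub (by norm_num) (by norm_num)
theorem b8_6_m00 : TcL (Lx (.a 1231496805806464 621245329832414 621245329832414)) (Lb.ex 8) (Lb.tl 558133838530185 562949953421312) (Lb.tl 558133838530185 562949953421312) 0 2251799813685248 :=
  (Pool.Agent.Helper81.TK.E_8_T_T_Ldd.T.box (Lb.le_refl _) (Lb.le_tl (by norm_num) (by norm_num)) (Lb.le_tl (by norm_num) (by norm_num))).sub (by norm_num) (by norm_num)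
/-- task `(24, 0, 24, 0)` of the class `8` -/
theorem h3_8_6 {q r : ℕ} (hT : inT ⟨24, 0, 24, 0, .a 1231496805806464 621245329832414 621245329832414⟩ q r = true) (hqr : q ≤ r) :
    QX 8 q r (Lx (.a 1231496805806464 621245329832414 621245329832414) 8 q r) ∧ QX 8 r q (Lx (.a 1231496805806464 621245329832414 621245329832414) 8 q r) :=
  h3_a (lo := 467248461339689) (hi := 526358206448927) (Q := [(24, 0)]) (R := [(24, 0)])
    (l := [((558133838530185, 562949953421312), (558133838530185, 562949953421312))])
    (l' := [((558133838530185, 562949953421312), (558133838530185, 562949953421312))])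
    (ex_has (by norm_num) (by norm_num)) (by norm_num) (by norm_num) (by decide +kernel) (by decide +kernel) (by norm_num) (by decide +kernel) (by norm_num)
    (FarI_two (by norm_num) (by norm_num) (by norm_num [ln0]) (by norm_num [ln1]) (by norm_num)) (by decide +kernel) (by decide +kernel)
    (List.forall_mem_cons.2 ⟨b8_6_d00, (fun _ h => absurd h List.not_mem_nil)⟩)
    (List.forall_mem_cons.2 ⟨b8_6_m00, (fun _ h => absurd h List.not_mem_nil)⟩) le_rfl hT hqr

/-- **ALL TASKS OF THE CLASS** -/
theorem h3_8 : ∀ t ∈ Tt 8, ∀ q r : ℕ, inT t q r = true → q ≤ r →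
    QX 8 q r (Lx t.l 8 q r) ∧ QX 8 r q (Lx t.l 8 q r) := by
  intro t ht q r hT hqr
  simp only [Tt, List.mem_cons, List.not_mem_nil, or_false] at ht
  rcases ht with rfl | rfl | rfl | rfl | rfl | rfl | rfl
  · exact h3_8_0 hT hqr
  · exact h3_8_1 hT hqr
  · exact h3_8_2 hT hqr
  · exact h3_8_3 hT hqr
  · exact h3_8_4 hT hqr
  · exact h3_8_5 hT hqr
  · exact h3_8_6 hT hqr

end Pool.Agent.Helper81.H3
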