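import Pool.Agent.Helper81.MIT.LinQ
import Pool.Agent.Helper30.W2.Tt
import Pool.Agent.Helper81.TK.GL7
import Pool.Agent.Helper81.TK.GL8
import Pool.Agent.Helper81.TK.GL9
import Pool.Agent.Helper81.TK.GL10

/-!
The quarters of the tasks of the class `9`.
-/

set_option autoImplicit false
set_option exponentiation.threshold 4000
noncomputable section
namespace Pool.Agent.Helper81.H3

open Pool.Agent.Helper81.MIT
open Pool.Agent.Helper6.MONO.QTR (QX)
open Pool.Agent.Helper6.CXT (ln0 ln1)
open Pool.Agent.Helper30.W2 (Lx inT Tt)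

theorem b9_0_d00 : TcL (Lx (.a 1191752540718462 994194636993796 281474976710656)) (Lb.ex 9) (Lb.tl 535397221549391 540146524804358) (Lb.tl 543767898917872 548835622751896) 0 2251799813685248 :=
  (Pool.Agent.Helper81.TK.E_9_T_T_Lab.T.box (Lb.le_refl _) (Lb.le_tl (by norm_num) (by norm_num)) (Lb.le_tl (by norm_num) (by norm_num))).sub (by norm_num) (by norm_num)
theorem b9_0_m00 : TcL (Lx (.a 1191752540718462 281474976710656 994194636993796)) (Lb.ex 9) (Lb.tl 543767898917872 548835622751896) (Lb.tl 535397221549391 540146524804358) 0 2251799813685248 :=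
  (Pool.Agent.Helper81.TK.E_9_T_T_Lba.T.box (Lb.le_refl _) (Lb.le_tl (by norm_num) (by norm_num)) (Lb.le_tl (by norm_num) (by norm_num))).sub (by norm_num) (by norm_num)
/-- task `(10, 11, 12, 14)` of the class `9` -/
theorem h3_9_0 {q r : ℕ} (hT : inT ⟨10, 11, 12, 14, .a 1191752540718462 994194636993796 281474976710656⟩ q r = true) (hqr : q ≤ r) :
    QX 9 q r (Lx (.a 1191752540718462 994194636993796 281474976710656) 9 q r) ∧ QX 9 r q (Lx (.a 1191752540718462 994194636993796 281474976710656) 9 q r) :=
  h3_a (lo := 475692710641009) (hi := 534802455750246) (Q := [(10, 11)]) (R := [(12, 14)])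
    (l := [((535397221549391, 540146524804358), (543767898917872, 548835622751896))])
    (l' := [((535397221549391, 540146524804358), (543767898917872, 548835622751896))])
    (ex_has (by norm_num) (by norm_num)) (by norm_num) (by norm_num) (by decide +kernel) (by decide +kernel) (by norm_num) (by decide +kernel) (by norm_num)
    (FarI_two (by norm_num) (by norm_num) (by norm_num [ln0]) (by norm_num [ln1]) (by norm_num)) (by decide +kernel) (by decide +kernel)
    (List.forall_mem_cons.2 ⟨b9_0_d00, (fun _ h => absurd h List.not_mem_nil)⟩)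
    (List.forall_mem_cons.2 ⟨b9_0_m00, (fun _ h => absurd h List.not_mem_nil)⟩) le_rfl hT hqr

theorem b9_1_d00 : TcL (Lx (.a 1216657434593745 637834806852226 637834806852226)) (Lb.ex 9) (Lb.tl 543767898917872 548835622751896) (Lb.tl 543767898917872 548835622751896) 0 2251799813685248 :=
  (Pool.Agent.Helper81.TK.E_9_T_T_Lbb.T.box (Lb.le_refl _) (Lb.le_tl (by norm_num) (by norm_num)) (Lb.le_tl (by norm_num) (by norm_num))).sub (by norm_num) (by norm_num)
theorem b9_1_m00 : TcL (Lx (.a 1216657434593745 637834806852226 637834806852226)) (Lb.ex 9) (Lb.tl 543767898917872 548835622751896) (Lb.tl 543767898917872 548835622751896) 0 2251799813685248 :=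
  (Pool.Agent.Helper81.TK.E_9_T_T_Lbb.T.box (Lb.le_refl _) (Lb.le_tl (by norm_num) (by norm_num)) (Lb.le_tl (by norm_num) (by norm_num))).sub (by norm_num) (by norm_num)
/-- task `(12, 14, 12, 14)` of the class `9` -/
theorem h3_9_1 {q r : ℕ} (hT : inT ⟨12, 14, 12, 14, .a 1216657434593745 637834806852226 637834806852226⟩ q r = true) (hqr : q ≤ r) :
    QX 9 q r (Lx (.a 1216657434593745 637834806852226 637834806852226) 9 q r) ∧ QX 9 r q (Lx (.a 1216657434593745 637834806852226 637834806852226) 9 q r) :=
  h3_a (lo := 475692710641009) (hi := 534802455750246) (Q := [(12, 14)]) (R := [(12, 14)])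
    (l := [((543767898917872, 548835622751896), (543767898917872, 548835622751896))])
    (l' := [((543767898917872, 548835622751896), (543767898917872, 548835622751896))])
    (ex_has (by norm_num) (by norm_num)) (by norm_num) (by norm_num) (by decide +kernel) (by decide +kernel) (by norm_num) (by decide +kernel) (by norm_num)
    (FarI_two (by norm_num) (by norm_num) (by norm_num [ln0]) (by norm_num [ln1]) (by norm_num)) (by decide +kernel) (by decide +kernel)
    (List.forall_mem_cons.2 ⟨b9_1_d00, (fun _ h => absurd h List.not_mem_nil)⟩)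
    (List.forall_mem_cons.2 ⟨b9_1_m00, (fun _ h => absurd h List.not_mem_nil)⟩) le_rfl hT hqr

theorem b9_2_d00 : TcL (Lx (.a 1191752540718462 994194636993796 281474976710656)) (Lb.ex 9) (Lb.tl 546591650894799 548835622751896) (Lb.tl 550648146272263 557706607176302) 0 2251799813685248 :=
  (Pool.Agent.Helper81.TK.E_9_T_T_Lmc.T.box (Lb.le_refl _) (Lb.le_tl (by norm_num) (by norm_num)) (Lb.le_tl (by norm_num) (by norm_num))).sub (by norm_num) (by norm_num)
theorem b9_2_m00 : TcL (Lx (.a 1191752540718462 281474976710656 994194636993796)) (Lb.ex 9) (Lb.tl 550648146272263 557706607176302) (Lb.tl 546591650894799 548835622751896) 0 2251799813685248 :=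
  (Pool.Agent.Helper81.TK.E_9_T_T_Lcm.T.box (Lb.le_refl _) (Lb.le_tl (by norm_num) (by norm_num)) (Lb.le_tl (by norm_num) (by norm_num))).sub (by norm_num) (by norm_num)
theorem b9_2_d01 : TcL (Lx (.a 1191752540718462 994194636993796 281474976710656)) (Lb.ex 9) (Lb.tl 546591650894799 548835622751896) (Lb.tl 558133838530185 562949953421312) 0 2251799813685248 :=
  (Pool.Agent.Helper81.TK.E_9_T_T_Lmd.T.box (Lb.le_refl _) (Lb.le_tl (by norm_num) (by norm_num)) (Lb.le_tl (by norm_num) (by norm_num))).sub (by norm_num) (by norm_num)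
theorem b9_2_m01 : TcL (Lx (.a 1191752540718462 281474976710656 994194636993796)) (Lb.ex 9) (Lb.tl 558133838530185 562949953421312) (Lb.tl 546591650894799 548835622751896) 0 2251799813685248 :=
  (Pool.Agent.Helper81.TK.E_9_T_T_Ldm.T.box (Lb.le_refl _) (Lb.le_tl (by norm_num) (by norm_num)) (Lb.le_tl (by norm_num) (by norm_num))).sub (by norm_num) (by norm_num)
/-- task `(13, 14, 15, 0)` of the class `9` -/
theorem h3_9_2 {q r : ℕ} (hT : inT ⟨13, 14, 15, 0, .a 1191752540718462 994194636993796 281474976710656⟩ q r = true) (hqr : q ≤ r) :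
    QX 9 q r (Lx (.a 1191752540718462 994194636993796 281474976710656) 9 q r) ∧ QX 9 r q (Lx (.a 1191752540718462 994194636993796 281474976710656) 9 q r) :=
  h3_a (lo := 475692710641009) (hi := 534802455750246) (Q := [(13, 14)]) (R := [(15, 23), (24, 0)])
    (l := [((546591650894799, 548835622751896), (550648146272263, 557706607176302)), ((546591650894799, 548835622751896), (558133838530185, 562949953421312))])
    (l' := [((546591650894799, 548835622751896), (550648146272263, 557706607176302)), ((546591650894799, 548835622751896), (558133838530185, 562949953421312))])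
    (ex_has (by norm_num) (by norm_num)) (by norm_num) (by norm_num) (by decide +kernel) (by decide +kernel) (by norm_num) (by decide +kernel) (by norm_num)
    (FarI_two (by norm_num) (by norm_num) (by norm_num [ln0]) (by norm_num [ln1]) (by norm_num)) (by decide +kernel) (by decide +kernel)
    (List.forall_mem_cons.2 ⟨b9_2_d00, (List.forall_mem_cons.2 ⟨b9_2_d01, (fun _ h => absurd h List.not_mem_nil)⟩)⟩)
    (List.forall_mem_cons.2 ⟨b9_2_m00, (List.forall_mem_cons.2 ⟨b9_2_m01, (fun _ h => absurd h List.not_mem_nil)⟩)⟩) le_rfl hT hqr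

theorem b9_3_d00 : TcL (Lx (.a 1226940814413508 637834806852226 637834806852226)) (Lb.ex 9) (Lb.tl 550648146272263 557706607176302) (Lb.tl 550648146272263 557706607176302) 0 2251799813685248 :=
  (Pool.Agent.Helper81.TK.E_9_T_T_Lcc.T.box (Lb.le_refl _) (Lb.le_tl (by norm_num) (by norm_num)) (Lb.le_tl (by norm_num) (by norm_num))).sub (by norm_num) (by norm_num)
theorem b9_3_m00 : TcL (Lx (.a 1226940814413508 637834806852226 637834806852226)) (Lb.ex 9) (Lb.tl 550648146272263 557706607176302) (Lb.tl 550648146272263 557706607176302) 0 2251799813685248 :=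
  (Pool.Agent.Helper81.TK.E_9_T_T_Lcc.T.box (Lb.le_refl _) (Lb.le_tl (by norm_num) (by norm_num)) (Lb.le_tl (by norm_num) (by norm_num))).sub (by norm_num) (by norm_num)
/-- task `(15, 23, 15, 23)` of the class `9` -/
theorem h3_9_3 {q r : ℕ} (hT : inT ⟨15, 23, 15, 23, .a 1226940814413508 637834806852226 637834806852226⟩ q r = true) (hqr : q ≤ r) :
    QX 9 q r (Lx (.a 1226940814413508 637834806852226 637834806852226) 9 q r) ∧ QX 9 r q (Lx (.a 1226940814413508 637834806852226 637834806852226) 9 q r) :=
  h3_a (lo := 475692710641009) (hi := 534802455750246) (Q := [(15, 23)]) (R := [(15, 23)])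
    (l := [((550648146272263, 557706607176302), (550648146272263, 557706607176302))])
    (l' := [((550648146272263, 557706607176302), (550648146272263, 557706607176302))])
    (ex_has (by norm_num) (by norm_num)) (by norm_num) (by norm_num) (by decide +kernel) (by decide +kernel) (by norm_num) (by decide +kernel) (by norm_num)
    (FarI_two (by norm_num) (by norm_num) (by norm_num [ln0]) (by norm_num [ln1]) (by norm_num)) (by decide +kernel) (by decide +kernel)
    (List.forall_mem_cons.2 ⟨b9_3_d00, (fun _ h => absurd h List.not_mem_nil)⟩)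
    (List.forall_mem_cons.2 ⟨b9_3_m00, (fun _ h => absurd h List.not_mem_nil)⟩) le_rfl hT hqr

theorem b9_4_d00 : TcL (Lx (.a 1191752540718462 994194636993796 281474976710656)) (Lb.ex 9) (Lb.tl 550648146272263 557706607176302) (Lb.tl 558133838530185 562949953421312) 0 2251799813685248 :=
  (Pool.Agent.Helper81.TK.E_9_T_T_Lcd.T.box (Lb.le_refl _) (Lb.le_tl (by norm_num) (by norm_num)) (Lb.le_tl (by norm_num) (by norm_num))).sub (by norm_num) (by norm_num)
theorem b9_4_m00 : TcL (Lx (.a 1191752540718462 281474976710656 994194636993796)) (Lb.ex 9) (Lb.tl 558133838530185 562949953421312) (Lb.tl 550648146272263 557706607176302) 0 2251799813685248 :=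
  (Pool.Agent.Helper81.TK.E_9_T_T_Ldc.T.box (Lb.le_refl _) (Lb.le_tl (by norm_num) (by norm_num)) (Lb.le_tl (by norm_num) (by norm_num))).sub (by norm_num) (by norm_num)
/-- task `(15, 23, 24, 0)` of the class `9` -/
theorem h3_9_4 {q r : ℕ} (hT : inT ⟨15, 23, 24, 0, .a 1191752540718462 994194636993796 281474976710656⟩ q r = true) (hqr : q ≤ r) :
    QX 9 q r (Lx (.a 1191752540718462 994194636993796 281474976710656) 9 q r) ∧ QX 9 r q (Lx (.a 1191752540718462 994194636993796 281474976710656) 9 q r) :=
  h3_a (lo := 475692710641009) (hi := 534802455750246) (Q := [(15, 23)]) (R := [(24, 0)])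
    (l := [((550648146272263, 557706607176302), (558133838530185, 562949953421312))])
    (l' := [((550648146272263, 557706607176302), (558133838530185, 562949953421312))])
    (ex_has (by norm_num) (by norm_num)) (by norm_num) (by norm_num) (by decide +kernel) (by decide +kernel) (by norm_num) (by decide +kernel) (by norm_num)
    (FarI_two (by norm_num) (by norm_num) (by norm_num [ln0]) (by norm_num [ln1]) (by norm_num)) (by decide +kernel) (by decide +kernel)
    (List.forall_mem_cons.2 ⟨b9_4_d00, (fun _ h => absurd h List.not_mem_nil)⟩)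
    (List.forall_mem_cons.2 ⟨b9_4_m00, (fun _ h => absurd h List.not_mem_nil)⟩) le_rfl hT hqr

theorem b9_5_d00 : TcL (Lx (.a 1216037874230146 637834806852226 637834806852226)) (Lb.ex 9) (Lb.tl 558133838530185 562949953421312) (Lb.tl 558133838530185 562949953421312) 0 2251799813685248 :=
  (Pool.Agent.Helper81.TK.E_9_T_T_Ldd.T.box (Lb.le_refl _) (Lb.le_tl (by norm_num) (by norm_num)) (Lb.le_tl (by norm_num) (by norm_num))).sub (by norm_num) (by norm_num)
theorem b9_5_m00 : TcL (Lx (.a 1216037874230146 637834806852226 637834806852226)) (Lb.ex 9) (Lb.tl 558133838530185 562949953421312) (Lb.tl 558133838530185 562949953421312) 0 2251799813685248 :=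
  (Pool.Agent.Helper81.TK.E_9_T_T_Ldd.T.box (Lb.le_refl _) (Lb.le_tl (by norm_num) (by norm_num)) (Lb.le_tl (by norm_num) (by norm_num))).sub (by norm_num) (by norm_num)
/-- task `(24, 0, 24, 0)` of the class `9` -/
theorem h3_9_5 {q r : ℕ} (hT : inT ⟨24, 0, 24, 0, .a 1216037874230146 637834806852226 637834806852226⟩ q r = true) (hqr : q ≤ r) :
    QX 9 q r (Lx (.a 1216037874230146 637834806852226 637834806852226) 9 q r) ∧ QX 9 r q (Lx (.a 1216037874230146 637834806852226 637834806852226) 9 q r) :=
  h3_a (lo := 475692710641009) (hi := 534802455750246) (Q := [(24, 0)]) (R := [(24, 0)])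
    (l := [((558133838530185, 562949953421312), (558133838530185, 562949953421312))])
    (l' := [((558133838530185, 562949953421312), (558133838530185, 562949953421312))])
    (ex_has (by norm_num) (by norm_num)) (by norm_num) (by norm_num) (by decide +kernel) (by decide +kernel) (by norm_num) (by decide +kernel) (by norm_num)
    (FarI_two (by norm_num) (by norm_num) (by norm_num [ln0]) (by norm_num [ln1]) (by norm_num)) (by decide +kernel) (by decide +kernel)
    (List.forall_mem_cons.2 ⟨b9_5_d00, (fun _ h => absurd h List.not_mem_nil)⟩)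
    (List.forall_mem_cons.2 ⟨b9_5_m00, (fun _ h => absurd h List.not_mem_nil)⟩) le_rfl hT hqr

/-- **ALL TASKS OF THE CLASS** -/
theorem h3_9 : ∀ t ∈ Tt 9, ∀ q r : ℕ, inT t q r = true → q ≤ r →
    QX 9 q r (Lx t.l 9 q r) ∧ QX 9 r q (Lx t.l 9 q r) := by
  intro t ht q r hT hqr
  simp only [Tt, List.mem_cons, List.not_mem_nil, or_false] at ht
  rcases ht with rfl | rfl | rfl | rfl | rfl | rfl
  · exact h3_9_0 hT hqr
  · exact h3_9_1 hT hqr
  · exact h3_9_2 hT hqr
  · exact h3_9_3 hT hqr
  · exact h3_9_4 hT hqr
  · exact h3_9_5 hT hqr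

end Pool.Agent.Helper81.H3
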