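import Pool.Agent.Helper81.H3.P3
import Pool.Agent.Helper30.W2.Lin

/-!
The class `3` of two tails: the quarters on the lines `mL`.
-/

set_option autoImplicit false
noncomputable section
namespace Pool.Agent.Helper81.H3

open Pool.Agent.Helper6.MONO.QTR (QX)
open Pool.Agent.Helper30.W2

theorem h3_lad_3 {q r : ℕ} (hq : 10 ≤ q) (hqr : q ≤ r) :
    QX 3 q r (-((mL 3 q r : ℕ) : ℝ) / 2 ^ 48) ∧ QX 3 r q (-((mL 3 q r : ℕ) : ℝ) / 2 ^ 48) := by
  rcases Nat.lt_or_ge 14 q with h | h
  · have k := h3_3_1 (q := q) (r := r) (by simp [inT, inR]; omega) hqr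
    rw [mL_11 (by omega) hqr]
    rw [Lx_c] at k
    have e : -((Lt 3 1 1 : ℕ) : ℝ) / 2 ^ 48 = -(((253327479039591 : ℕ) : ℝ) / 2 ^ 48) := by
      rw [show Lt 3 1 1 = 253327479039591 from rfl, neg_div]
    rw [e]
    exact k
  · have k := h3_3_0 (q := q) (r := r) (by simp [inT, inR]; omega) hqr
    rw [Lx_c] at k
    have e : -((mL 3 q r : ℕ) : ℝ) / 2 ^ 48 = -(((233624230669844 : ℕ) : ℝ) / 2 ^ 48) := by
      have e1 : mL 3 q r = 233624230669844 := by
        rcases Nat.lt_or_ge 14 r with g | g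
        · rw [mL_01 h (by omega)]
          rfl
        · rw [mL_00 h g]
          rfl
      rw [e1, neg_div]
    rw [e]
    exact k

end Pool.Agent.Helper81.H3
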