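import Pool.Agent.Helper81.H3.P6
import Pool.Agent.Helper30.W2.Lin

/-!
The class `6` of two tails: the quarters on the lines `mL`.
-/

set_option autoImplicit false
noncomputable section
namespace Pool.Agent.Helper81.H3

open Pool.Agent.Helper6.MONO.QTR (QX)
open Pool.Agent.Helper30.W2

theorem h3_lad_6 {q r : ℕ} (hq : 10 ≤ q) (hqr : q ≤ r) :
    QX 6 q r (-((mL 6 q r : ℕ) : ℝ) / 2 ^ 48) ∧ QX 6 r q (-((mL 6 q r : ℕ) : ℝ) / 2 ^ 48) := by
  rcases Nat.lt_or_ge 14 q with h | h
  · have k := h3_6_1 (q := q) (r := r) (by simp [inT, inR]; omega) hqr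
    rw [mL_11 (by omega) hqr]
    rw [Lx_c] at k
    have e : -((Lt 6 1 1 : ℕ) : ℝ) / 2 ^ 48 = -(((461618961805476 : ℕ) : ℝ) / 2 ^ 48) := by
      rw [show Lt 6 1 1 = 461618961805476 from rfl, neg_div]
    rw [e]
    exact k
  · have k := h3_6_0 (q := q) (r := r) (by simp [inT, inR]; omega) hqr
    rw [Lx_c] at k
    have e : -((mL 6 q r : ℕ) : ℝ) / 2 ^ 48 = -(((444730463202836 : ℕ) : ℝ) / 2 ^ 48) := by
      have e1 : mL 6 q r = 444730463202836 := by
        rcases Nat.lt_or_ge 14 r with g | g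
        · rw [mL_01 h (by omega)]
          rfl
        · rw [mL_00 h g]
          rfl
      rw [e1, neg_div]
    rw [e]
    exact k

end Pool.Agent.Helper81.H3
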